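import Pool.Agent.MWGR.StmtsF

/-!
# MWGR: row IMP (helper13)
-/

set_option autoImplicit false

namespace Pool.Agent.MWGR.H13

open Pool.Agent.Helper14_MV Pool.Agent.Helper2_MV Pool.Agent.MVO Pool.Agent.MWL Pool.Agent.MWS
  Pool.Agent.MWH

theorem xf (n : ℕ) (g : ℕ → List ℕ) (h : g 0 = [0]) : (X n).flatMap g = X n := by
  unfold X
  induction n with
  | zero => simp
  | succ n ih => rw [List.replicate_succ, List.flatMap_cons, ih, h]; rfl

theorem imp : ImpStmt := by
  intro n θ
  refine ⟨fun h => ⟨?_, ?_⟩, fun h => ?_, fun h => ?_⟩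
  · have := RR.sub (fun i => if i = 2 then [2, 0, 3] else [i]) h
    rw [List.flatMap_append, List.flatMap_append, xf n _ (by simp)] at this
    simpa [Al1] using this
  · have := RR.append h (RR.refl (β := θ) [3, 0])
    simpa [Al2] using this
  · have := RR.append (RR.refl (β := θ) [0, 2]) (RR.sub (fun i => if i = 2 then [3] else [i]) h)
    rw [List.flatMap_append, xf n _ (by simp)] at this
    simpa [Rh] using this
  · have := RR.append (RR.refl (β := θ) [0]) h
    simpa [Rh'] using this

end Pool.Agent.MWGR.H13
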